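import Mathlib

/-!
Points of corner-free sets in `(F_2^n)^2` with certificates of low degree.
-/

set_option autoImplicit false

namespace Pool.Agent.R288.PC

open Finset Module

/-- `F_2^n` -/
abbrev V (n : ℕ) := Fin n → ZMod 2

/-- the monomial `∏_{i ∈ I} y_i`, as a function to `K` -/
def mono (K : Type) [Field K] {n : ℕ} (I : Finset (Fin n)) : V n → K :=
  fun y => if ∀ i ∈ I, y i = 1 then 1 else 0

/-- the functions of degree at most `D` -/
def Deg (K : Type) [Field K] (n D : ℕ) : Submodule K (V n → K) :=
  Submodule.span K {f | ∃ I : Finset (Fin n), I.card ≤ D ∧ f = mono K I}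

/-- `∑_{i ≤ D} C(n, i)` -/
def vol (n D : ℕ) : ℕ := ∑ i ∈ range (D + 1), n.choose i

lemma card_small (n D : ℕ) :
    ((univ : Finset (Finset (Fin n))).filter (fun I => I.card ≤ D)).card = vol n D := by
  classical
  have h : (univ : Finset (Finset (Fin n))).filter (fun I => I.card ≤ D) =
      (range (D + 1)).biUnion (fun i => powersetCard i univ) := by
    ext I
    simp only [mem_filter, mem_univ, true_and, mem_biUnion, mem_range, mem_powersetCard,
      subset_univ]
    constructor
    · intro h; exact ⟨_, by omega, rfl⟩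
    · rintro ⟨i, hi, h⟩; omega
  rw [h, card_biUnion]
  · simp [vol]
  · intro i _ j _ hij
    refine disjoint_left.2 (fun I h1 h2 => hij ?_)
    rw [mem_powersetCard] at h1 h2
    rw [← h1.2, h2.2]

variable {K : Type} [Field K] {n : ℕ}

lemma finrank_deg (D : ℕ) : finrank K (Deg K n D) ≤ vol n D := by
  classical
  have h : {f | ∃ I : Finset (Fin n), I.card ≤ D ∧ f = mono K I} =
      (((univ : Finset (Finset (Fin n))).filter (fun I => I.card ≤ D)).image (mono K) :
        Set (V n → K)) := by
    ext f
    simp only [Set.mem_ofPred_eq, coe_image, coe_filter, mem_univ, true_and, Set.mem_image]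
    constructor
    · rintro ⟨I, h1, h2⟩; exact ⟨I, h1, h2.symm⟩
    · rintro ⟨I, h1, h2⟩; exact ⟨I, h1, h2.symm⟩
  unfold Deg
  rw [h]
  refine (finrank_span_finset_le_card _).trans ?_
  rw [← card_small]
  exact card_image_le

lemma mono_mem {D : ℕ} {I : Finset (Fin n)} (h : I.card ≤ D) : mono K I ∈ Deg K n D :=
  Submodule.subset_span ⟨I, h, rfl⟩

lemma one_mem (D : ℕ) : (fun _ => 1 : V n → K) ∈ Deg K n D := by
  have := mono_mem (K := K) (n := n) (D := D) (I := ∅) (by simp)
  convert this using 1
  funext y
  simp [mono]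

lemma deg_mono {D E : ℕ} (h : D ≤ E) : Deg K n D ≤ Deg K n E := by
  refine Submodule.span_mono ?_
  rintro f ⟨I, h1, h2⟩
  exact ⟨I, h1.trans h, h2⟩

lemma mono_mul (I J : Finset (Fin n)) :
    (fun y => mono K I y * mono K J y) = mono K (I ∪ J) := by
  classical
  funext y
  unfold mono
  by_cases h1 : ∀ i ∈ I, y i = 1
  · by_cases h2 : ∀ i ∈ J, y i = 1
    · rw [if_pos h1, if_pos h2, if_pos, one_mul]
      intro i hi
      rcases mem_union.1 hi with h | h
      · exact h1 i h
      · exact h2 i h
    · rw [if_neg h2, mul_zero, if_neg]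
      intro h
      exact h2 (fun i hi => h i (mem_union_right _ hi))
  · rw [if_neg h1, zero_mul, if_neg]
    intro h
    exact h1 (fun i hi => h i (mem_union_left _ hi))

lemma mul_mem {D E : ℕ} {f g : V n → K} (hf : f ∈ Deg K n D) (hg : g ∈ Deg K n E) :
    (fun y => f y * g y) ∈ Deg K n (D + E) := by
  classical
  unfold Deg at hf hg
  induction hf using Submodule.span_induction with
  | mem f hf =>
    obtain ⟨I, hI, rfl⟩ := hf
    induction hg using Submodule.span_induction with
    | mem g hg =>
      obtain ⟨J, hJ, rfl⟩ := hg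
      rw [mono_mul]
      exact mono_mem ((card_union_le _ _).trans (add_le_add hI hJ))
    | zero => simp only [Pi.zero_apply, mul_zero]; exact (Deg K n (D + E)).zero_mem
    | add g g' _ _ h h' =>
      have := (Deg K n (D + E)).add_mem h h'
      convert this using 1
      funext y
      simp [mul_add]
    | smul c g _ h =>
      have := (Deg K n (D + E)).smul_mem c h
      convert this using 1
      funext y
      simp [mul_left_comm]
  | zero => simp only [Pi.zero_apply, zero_mul]; exact (Deg K n (D + E)).zero_mem
  | add g g' _ _ h h' =>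
    have := (Deg K n (D + E)).add_mem h h'
    convert this using 1
    funext y
    simp [add_mul]
  | smul c g _ h =>
    have := (Deg K n (D + E)).smul_mem c h
    convert this using 1
    funext y
    simp [mul_assoc]

lemma prod_mem {ι : Type} (s : Finset ι) (f : ι → V n → K) (hf : ∀ i ∈ s, f i ∈ Deg K n 1) :
    (fun y => ∏ i ∈ s, f i y) ∈ Deg K n s.card := by
  classical
  induction s using Finset.induction_on with
  | empty => simpa using one_mem (K := K) (n := n) 0
  | insert a s ha ih =>
    have h1 := mul_mem (hf a (mem_insert_self _ _)) (ih (fun i hi => hf i (mem_insert_of_mem hi)))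
    rw [card_insert_of_notMem ha, add_comm]
    convert h1 using 1
    funext y
    rw [prod_insert ha]

/-- the coordinate function -/
lemma coord_mem (i : Fin n) : (fun y : V n => if y i = 1 then (1 : K) else 0) ∈ Deg K n 1 := by
  have := mono_mem (K := K) (n := n) (D := 1) (I := {i}) (by simp)
  convert this using 1
  funext y
  simp [mono]

lemma zmod2 (a : ZMod 2) : a = 0 ∨ a = 1 := by
  revert a; decide

lemma translate (D : ℕ) (c : V n) {f : V n → K} (hf : f ∈ Deg K n D) :
    (fun y => f (c + y)) ∈ Deg K n D := by
  classical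
  unfold Deg at hf
  induction hf using Submodule.span_induction with
  | mem f hf =>
    obtain ⟨I, hI, rfl⟩ := hf
    have h1 := prod_mem (K := K) I (fun (i : Fin n) (y : V n) => if (c + y) i = 1 then (1 : K) else 0) ?_
    · refine deg_mono hI ?_
      convert h1 using 1
      funext y
      unfold mono
      by_cases h : ∀ i ∈ I, (c + y) i = 1
      · rw [if_pos h, prod_congr rfl (fun i hi => if_pos (h i hi))]
        simp
      · rw [if_neg h]
        push Not at h
        obtain ⟨i, hi, h⟩ := h
        exact (prod_eq_zero hi (if_neg h)).symm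
    · intro i _
      rcases zmod2 (c i) with h | h
      · convert coord_mem (K := K) i using 1
        funext y
        simp [h]
      · have := (Deg K n 1).sub_mem (one_mem (K := K) (n := n) 1) (coord_mem (K := K) i)
        convert this using 1
        funext y
        simp only [Pi.add_apply, h, Pi.sub_apply]
        rcases zmod2 (y i) with h2 | h2
        · simp [h2]
        · rw [h2, if_neg (by decide)]
          simp
  | zero => simp only [Pi.zero_apply]; exact (Deg K n D).zero_mem
  | add g g' _ _ h h' => exact (Deg K n D).add_mem h h'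
  | smul c g _ h => exact (Deg K n D).smul_mem c h

/-- `A` contains no nontrivial corner. -/
def CornerFree (A : Finset (V n × V n)) : Prop :=
  ∀ x y z : V n, (x, y) ∈ A → (x, y + z) ∈ A → (x + z, y) ∈ A → z = 0

/-- the point `y` of `L` has a certificate of degree at most `D` -/
def Cert (K : Type) [Field K] {n : ℕ} (D : ℕ) (L : Set (V n)) (y : V n) : Prop :=
  ∃ h ∈ Deg K n D, h y ≠ 0 ∧ ∀ y', h y' ≠ 0 → y' ∈ L

lemma neg_self (a : V n) : a + a = 0 := by
  funext i
  have : ∀ b : ZMod 2, b + b = 0 := by decide
  exact this (a i)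

/-- the points certified in their rows, column by column -/
lemma column (D : ℕ) (A : Finset (V n × V n)) (hA : CornerFree A) (y : V n) (S : Finset (V n))
    (hS : ∀ x ∈ S, (x, y) ∈ A ∧ Cert K D {y' | (x, y') ∈ A} y) : S.card ≤ vol n D := by
  classical
  choose! h hd hy hs using fun x (hx : x ∈ S) => (hS x hx).2
  have hli : LinearIndependent K (fun x : S => (⟨fun x' => h x ((y + x) + x'),
      translate D _ (hd x x.2)⟩ : Deg K n D)) := by
    rw [linearIndependent_iff']
    intro s g hg x0 hx0
    have h1 := congrArg (fun f : Deg K n D => (f : V n → K) x0) hg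
    simp only [Submodule.coe_sum, Submodule.coe_smul, Finset.sum_apply, Pi.smul_apply,
      smul_eq_mul, ZeroMemClass.coe_zero, Pi.zero_apply] at h1
    rw [sum_eq_single x0] at h1
    · have e : y + x0 + x0 = y := by rw [add_assoc, neg_self, add_zero]
      rw [e] at h1
      exact (mul_eq_zero.1 h1).resolve_right (hy x0 x0.2)
    · intro x _ hne
      refine mul_eq_zero_of_right _ ?_
      by_contra hc
      have h2 := hs x x.2 _ hc
      have h3 : ((x : V n), y) ∈ A := (hS x x.2).1
      have h4 : ((x0 : V n), y) ∈ A := (hS x0 x0.2).1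
      have h5 := hA x y (x + x0) h3 (by
        have e : y + ((x : V n) + x0) = y + x + x0 := by rw [add_assoc]
        rw [e]; exact h2) (by
        have e : (x : V n) + (x + x0) = x0 := by rw [← add_assoc, neg_self, zero_add]
        rw [e]; exact h4)
      apply hne
      apply Subtype.ext
      have h6 : (x : V n) + x0 + x0 = 0 + x0 := by rw [h5]
      rw [add_assoc, neg_self, add_zero, zero_add] at h6
      exact h6
    · intro h; exact absurd hx0 h
  have h1 := hli.fintype_card_le_finrank
  rw [Fintype.card_coe] at h1
  exact h1.trans (finrank_deg D)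

/-- the points certified in their rows -/
lemma rows (D : ℕ) (A : Finset (V n × V n)) (hA : CornerFree A) (S : Finset (V n × V n))
    (hS : ∀ a ∈ S, a ∈ A ∧ Cert K D {y' | (a.1, y') ∈ A} a.2) :
    S.card ≤ 2 ^ n * vol n D := by
  classical
  have h1 : S.card = ∑ y : V n, (S.filter (fun a => a.2 = y)).card :=
    card_eq_sum_card_fiberwise (fun _ _ => mem_univ _)
  rw [h1]
  have h2 : ∀ y : V n, (S.filter (fun a => a.2 = y)).card ≤ vol n D := by
    intro y
    have h3 : (S.filter (fun a => a.2 = y)).card =
        ((S.filter (fun a => a.2 = y)).image Prod.fst).card := by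
      rw [card_image_of_injOn]
      rintro ⟨a, b⟩ ha ⟨a', b'⟩ ha' h
      simp only [coe_filter, Set.mem_ofPred_eq] at ha ha'
      simp only at h
      rw [Prod.mk.injEq]
      exact ⟨h, ha.2.trans ha'.2.symm⟩
    rw [h3]
    refine column (K := K) D A hA y _ ?_
    intro x hx
    rw [mem_image] at hx
    obtain ⟨⟨a, b⟩, hab, rfl⟩ := hx
    rw [mem_filter] at hab
    obtain ⟨h4, rfl⟩ := hab
    exact hS _ h4
  refine (sum_le_sum (fun y _ => h2 y)).trans ?_
  rw [sum_const, card_univ, Fintype.card_fun, ZMod.card, Fintype.card_fin, smul_eq_mul]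

/-- the reflected set -/
lemma flip (A : Finset (V n × V n)) (hA : CornerFree A) :
    CornerFree (A.map (Equiv.prodComm _ _).toEmbedding) := by
  intro x y z h1 h2 h3
  simp only [mem_map_equiv, Equiv.prodComm_symm, Equiv.prodComm_apply, Prod.swap_prod_mk]
    at h1 h2 h3
  exact hA y x z h1 h3 h2

/-- the shear `(x, y) ↦ (x + y, y)` -/
def shear (n : ℕ) : (V n × V n) ≃ (V n × V n) where
  toFun a := (a.1 + a.2, a.2)
  invFun a := (a.1 + a.2, a.2)
  left_inv a := by
    ext1
    · simp only; rw [add_assoc, neg_self, add_zero]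
    · rfl
  right_inv a := by
    ext1
    · simp only; rw [add_assoc, neg_self, add_zero]
    · rfl

/-- the sheared set -/
lemma sheared (A : Finset (V n × V n)) (hA : CornerFree A) :
    CornerFree (A.map (shear n).toEmbedding) := by
  intro x y z h1 h2 h3
  simp only [mem_map_equiv] at h1 h2 h3
  change (x + y, y) ∈ A at h1
  change (x + (y + z), y + z) ∈ A at h2
  change (x + z + y, y) ∈ A at h3
  refine hA (x + y + z) y z ?_ ?_ ?_
  · have : x + y + z = x + z + y := by abel
    rw [this]; exact h3
  · have : x + y + z = x + (y + z) := by abel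
    rw [this]; exact h2
  · rw [add_assoc, neg_self, add_zero]; exact h1

/-- the points certified in their columns -/
lemma cols (D : ℕ) (A : Finset (V n × V n)) (hA : CornerFree A) (S : Finset (V n × V n))
    (hS : ∀ a ∈ S, a ∈ A ∧ Cert K D {x' | (x', a.2) ∈ A} a.1) :
    S.card ≤ 2 ^ n * vol n D := by
  have h := rows (K := K) D _ (flip A hA) (S.map (Equiv.prodComm _ _).toEmbedding) ?_
  · rwa [card_map] at h
  · rintro ⟨a, b⟩ ha
    rw [mem_map_equiv] at ha ⊢
    obtain ⟨h1, h2⟩ := hS _ ha
    refine ⟨h1, ?_⟩
    simp only [mem_map_equiv]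
    exact h2

/-- the points certified in their diagonals -/
lemma diags (D : ℕ) (A : Finset (V n × V n)) (hA : CornerFree A) (S : Finset (V n × V n))
    (hS : ∀ a ∈ S, a ∈ A ∧ Cert K D {y' | (a.1 + a.2 + y', y') ∈ A} a.2) :
    S.card ≤ 2 ^ n * vol n D := by
  have h := rows (K := K) D _ (sheared A hA) (S.map (shear n).toEmbedding) ?_
  · rwa [card_map] at h
  · rintro ⟨a, b⟩ ha
    rw [mem_map_equiv] at ha ⊢
    obtain ⟨h1, h2⟩ := hS _ ha
    refine ⟨h1, ?_⟩
    simp only [mem_map_equiv]
    change Cert K D {y' | (a + b + b + y', y') ∈ A} b at h2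
    rw [add_assoc a b b, neg_self, add_zero] at h2
    exact h2

end Pool.Agent.R288.PC
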