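import Mathlib
import Pool.Agent.R288.PC.Basic

/-!
Certificates given by flats, and the tail bound.
-/

set_option autoImplicit false

namespace Pool.Agent.R288.PC

open Finset Module

variable {n : ℕ}

/-- `y` lies on a flat of dimension at least `d` which is contained in `L`. -/
def OnFlat (d : ℕ) (L : Set (V n)) (y : V n) : Prop :=
  ∃ W : Submodule (ZMod 2) (V n), d ≤ finrank (ZMod 2) W ∧ ∀ w ∈ W, y + w ∈ L

lemma linear_mem (f : V n →ₗ[ZMod 2] ZMod 2) :
    (fun y => f y) ∈ Deg (ZMod 2) n 1 := by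
  classical
  have h : (fun y => f y) = ∑ i : Fin n, f (Pi.single i 1) •
      (fun y : V n => if y i = 1 then (1 : ZMod 2) else 0) := by
    funext y
    rw [Finset.sum_apply]
    have h1 : f y = ∑ i, y i • f (Pi.single i 1) := by
      conv_lhs => rw [pi_eq_sum_univ' y]
      rw [map_sum]
      refine sum_congr rfl (fun i _ => ?_)
      rw [map_smul]
    rw [h1]
    refine sum_congr rfl (fun i _ => ?_)
    rw [Pi.smul_apply, smul_eq_mul, smul_eq_mul, mul_comm]
    congr 1
    rcases zmod2 (y i) with h | h <;> simp [h]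
  rw [h]
  exact Submodule.sum_mem _ (fun i _ => Submodule.smul_mem _ _ (coord_mem i))

lemma flat_cert (d : ℕ) (L : Set (V n)) (y : V n) (h : OnFlat d L y) :
    Cert (ZMod 2) (n - d) L y := by
  classical
  obtain ⟨W, hd, hW⟩ := h
  let b := Module.finBasis (ZMod 2) (V n ⧸ W)
  have hc : finrank (ZMod 2) (V n ⧸ W) + finrank (ZMod 2) W = n := by
    rw [Submodule.finrank_quotient_add_finrank]; simp
  let g : Fin (finrank (ZMod 2) (V n ⧸ W)) → V n → ZMod 2 :=
    fun j y' => 1 - (b.coord j ∘ₗ W.mkQ) (y + y')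
  have hg : ∀ j, g j ∈ Deg (ZMod 2) n 1 := by
    intro j
    exact Submodule.sub_mem _ (one_mem 1) (translate 1 y (linear_mem (b.coord j ∘ₗ W.mkQ)))
  have h1 := prod_mem (K := ZMod 2) univ g (fun j _ => hg j)
  rw [card_univ, Fintype.card_fin] at h1
  refine ⟨fun y' => ∏ j, g j y', deg_mono (by omega) h1, ?_, ?_⟩
  · have : ∀ j, g j y = 1 := by
      intro j
      simp only [g]
      rw [neg_self, map_zero, sub_zero]
    simp only [this]
    simp
  · intro y' hy'
    rw [prod_ne_zero_iff] at hy'
    have h2 : W.mkQ (y + y') = 0 := by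
      apply b.ext_elem
      intro j
      have h3 := hy' j (mem_univ _)
      simp only [g] at h3
      have h4 : ∀ a : ZMod 2, 1 - a ≠ 0 → a = 0 := by decide
      have h5 := h4 _ h3
      rw [LinearMap.comp_apply, Basis.coord_apply] at h5
      rw [h5, map_zero, Finsupp.zero_apply]
    rw [Submodule.mkQ_apply, Submodule.Quotient.mk_eq_zero] at h2
    have h3 := hW _ h2
    rwa [← add_assoc, neg_self, zero_add] at h3

/-- Chernoff's bound -/
lemma tail (n D : ℕ) (δ : ℝ) (hδ : 0 ≤ δ) (hD : (D : ℝ) ≤ (1 / 2 - δ) * n) :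
    (vol n D : ℝ) ≤ 2 ^ n * Real.exp (-(2 * δ ^ 2 * n)) := by
  set s : ℝ := 2 * δ with hs
  have hs0 : 0 ≤ s := by positivity
  set t : ℝ := Real.exp (-(2 * s)) with ht
  have ht0 : 0 < t := Real.exp_pos _
  have ht1 : t ≤ 1 := Real.exp_le_one_iff.2 (by linarith)
  have h1 : (vol n D : ℝ) * t ^ D ≤ (1 + t) ^ n := by
    unfold vol
    push_cast
    rw [sum_mul]
    calc ∑ i ∈ range (D + 1), (n.choose i : ℝ) * t ^ D
        ≤ ∑ i ∈ range (D + 1), (n.choose i : ℝ) * t ^ i := by
          refine sum_le_sum (fun i hi => ?_)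
          rw [mem_range] at hi
          exact mul_le_mul_of_nonneg_left (pow_le_pow_of_le_one ht0.le ht1 (by omega))
            (Nat.cast_nonneg _)
      _ ≤ ∑ i ∈ range (max D n + 1), (n.choose i : ℝ) * t ^ i := by
          refine sum_le_sum_of_subset_of_nonneg ?_ (fun i _ _ => by positivity)
          intro i hi
          rw [mem_range] at hi ⊢
          omega
      _ = ∑ i ∈ range (n + 1), (n.choose i : ℝ) * t ^ i := by
          symm
          refine sum_subset ?_ ?_
          · intro i hi
            rw [mem_range] at hi ⊢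
            omega
          · intro i _ hi
            rw [mem_range] at hi
            rw [Nat.choose_eq_zero_of_lt (by omega)]
            simp
      _ = (1 + t) ^ n := by
          rw [add_comm 1 t, add_pow]
          refine sum_congr rfl (fun i _ => ?_)
          rw [one_pow, mul_one, mul_comm]
  have h2 : (1 + t) ^ n = (2 * Real.cosh s) ^ n * Real.exp (-(s * n)) := by
    have : 1 + t = 2 * Real.cosh s * Real.exp (-s) := by
      rw [Real.cosh_eq, ht]
      have e1 : Real.exp s * Real.exp (-s) = 1 := by rw [← Real.exp_add]; simp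
      have e2 : Real.exp (-s) * Real.exp (-s) = Real.exp (-(2 * s)) := by
        rw [← Real.exp_add]; congr 1; ring
      rw [← e2]
      linear_combination -e1
    rw [this, mul_pow, ← Real.exp_nat_mul]
    congr 2
    ring
  have h3 : (2 * Real.cosh s) ^ n ≤ 2 ^ n * Real.exp (s ^ 2 / 2 * n) := by
    rw [mul_pow]
    refine mul_le_mul_of_nonneg_left ?_ (by positivity)
    have := pow_le_pow_left₀ (Real.cosh_pos s).le (Real.cosh_le_exp_half_sq s) n
    refine this.trans (le_of_eq ?_)
    rw [← Real.exp_nat_mul]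
    congr 1
    ring
  have h4 : t ^ D = Real.exp (-(2 * s * D)) := by
    rw [ht, ← Real.exp_nat_mul]
    congr 1
    ring
  have h5 : (vol n D : ℝ) ≤ (1 + t) ^ n * Real.exp (2 * s * D) := by
    have h6 : Real.exp (-(2 * s * D)) * Real.exp (2 * s * D) = 1 := by
      rw [← Real.exp_add]; simp
    calc (vol n D : ℝ) = vol n D * t ^ D * Real.exp (2 * s * D) := by
          rw [h4, mul_assoc, h6, mul_one]
      _ ≤ _ := mul_le_mul_of_nonneg_right h1 (Real.exp_pos _).le
  refine h5.trans ?_
  rw [h2]
  calc (2 * Real.cosh s) ^ n * Real.exp (-(s * n)) * Real.exp (2 * s * D)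
      ≤ 2 ^ n * Real.exp (s ^ 2 / 2 * n) * Real.exp (-(s * n)) * Real.exp (2 * s * D) := by
        gcongr
    _ = 2 ^ n * Real.exp (s ^ 2 / 2 * n + -(s * n) + 2 * s * D) := by
        rw [Real.exp_add, Real.exp_add]; ring
    _ ≤ 2 ^ n * Real.exp (-(2 * δ ^ 2 * n)) := by
        refine mul_le_mul_of_nonneg_left (Real.exp_le_exp.2 ?_) (by positivity)
        have h7 : 2 * s * D ≤ 2 * s * ((1 / 2 - δ) * n) :=
          mul_le_mul_of_nonneg_left hD (by positivity)
        have h8 : s ^ 2 / 2 * n + -(s * n) + 2 * s * ((1 / 2 - δ) * n) =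
            -(2 * δ ^ 2 * n) := by
          rw [hs]; ring
        linarith

end Pool.Agent.R288.PC
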